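import Pool.Agent.Helper16.SD.GoalsD

/-!
# Packet SD-D_TWO (project SD): the second half and `S_TEXP`
-/

set_option autoImplicit false

namespace Pool.Agent.Helper2.SD.D_TWO

open NumberField Module IsDedekindDomain TensorProduct
open Pool.Agent.Helper51.SigLeo Pool.Agent.Helper51.RP Pool.Agent.Helper51.REC
open Pool.Agent.Helper38.FD (Chr CutsOut LeopoldtFor)
open Pool.Agent.Helper38.FW (InDec)
open Pool.Agent.Helper38.TH (IsTower Hat)
open Pool.Agent.Helper17.TH (ug exO tm)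
open Pool.Agent.Helper16.SD

theorem t : Pool.Agent.Helper16.SD.D_TWO := by
  intro hD1 hKK hZT hRU hDT hSB hKP hXQ hDD hDF hZP hZPsi hDR p _ hp2 K _ _ _ hS Lg η om u hC χ ν F
    _ _ B hB O _ _ _ _ _ j c cn hco E _ _ hE
  obtain ⟨b, hb⟩ := hD1 hSB hKP hXQ hDD hDF hZP hZT hZPsi hDR p hp2 K hS Lg η om u hC χ ν F B hB O j
    c cn hco E hE
  obtain ⟨C, hCt⟩ := hDT p K Lg η om u hC χ ν F B hB O j c cn hco
  refine ⟨b + C, fun m k hk z hz1 hz2 => ?_⟩
  obtain ⟨n, M, iM, iG, ζ, Ψ, hL, hΨ⟩ := hb m k hk z hz1 hz2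
  let bs := Module.Free.chooseBasis ℤ_[p] O
  obtain ⟨e, y, he⟩ := (hZT p O _ bs (Additive (𝓞 (E m))ˣ) k).1 (p ^ b • z)
  have hζ : ζ ∈ M := by
    apply hL.mu
    rw [← Nat.sub_add_cancel hL.le, pow_add, mul_comm, pow_mul, hL.prim.pow_eq_one, one_pow]
  have hker : ∀ h : AlgebraicClosure K ≃ₐ[K] AlgebraicClosure K, (∀ x ∈ M, h x = x) →
      ∀ i, kum p k ζ ((((e i).toMul : (𝓞 (E m))ˣ) : E m) : AlgebraicClosure K) h = 0 := by
    intro h hh
    refine (hL.psi.ker _ bs (fun i => (e i).toMul) h hh).1 ?_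
    have h1 : Ψ (p ^ b • z) h = 0 := by
      rw [map_nsmul, Pi.smul_apply]
      exact hΨ h hh
    have h2 : Ψ (p ^ k • y) h = 0 := by
      rw [map_nsmul, Pi.smul_apply]
      exact (hXQ p O k).1 _
    rw [he, map_add, Pi.add_apply, h2, add_zero] at h1
    exact h1
  have hrou : ∀ i, ∃ ξ w : (𝓞 (E m))ˣ, ξ ^ p ^ n = 1 ∧ (e i).toMul = ξ * w ^ p ^ k := by
    intro i
    refine hRU p hp2 K (E m) M hL.EM n hL.mu hL.fix k hL.le (e i).toMul ?_
    refine hKK p K k ζ hL.prim M hζ _ ?_ (hL.EM (((e i).toMul : (𝓞 (E m))ˣ) : E m).2)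
      (fun h hh => hker h hh i)
    intro h0
    have h1 : ((((e i).toMul : (𝓞 (E m))ˣ) : 𝓞 (E m)) : E m) = 0 := Subtype.ext h0
    exact ((e i).toMul : (𝓞 (E m))ˣ).ne_zero (RingOfIntegers.coe_eq_zero_iff.1 h1)
  choose ξ w hξ hw using hrou
  have hz' : p ^ b • z = ∑ i, bs i ⊗ₜ[ℤ] Additive.ofMul (ξ i) +
      p ^ k • (y + ∑ i, bs i ⊗ₜ[ℤ] Additive.ofMul (w i)) := by
    rw [he, smul_add, Finset.smul_sum, add_comm (p ^ k • y), ← add_assoc,
      ← Finset.sum_add_distrib]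
    congr 1
    refine Finset.sum_congr rfl fun i _ => ?_
    have h1 : e i = Additive.ofMul (ξ i) + p ^ k • Additive.ofMul (w i) := by
      apply Additive.toMul.injective
      rw [hw i]
      rfl
    rw [h1, TensorProduct.tmul_add]
    congr 1
    exact map_nsmul (TensorProduct.mk ℤ O (Additive (𝓞 (E m))ˣ) (bs i)) (p ^ k)
      (Additive.ofMul (w i))
  have htw : ∀ g, ∃ y : O ⊗[ℤ] Additive (𝓞 (E m))ˣ,
      exO O (ug (E m) g) (p ^ b • z) - (c g * algebraMap ℤ_[p] O (u g : ℤ_[p]ˣ)) • (p ^ b • z) =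
        p ^ k • y := by
    intro g
    obtain ⟨y', hy'⟩ := hz2 g
    refine ⟨p ^ b • y', ?_⟩
    rw [map_nsmul, smul_comm _ (p ^ b) z, ← smul_sub, hy', smul_comm]
  obtain ⟨y'', hy''⟩ := hCt (E m) k n _ (fun i => bs i) (fun i => Additive.ofMul (ξ i)) _
    (p ^ b • z) (fun i => congrArg Additive.ofMul (hξ i)) hz' htw
  refine ⟨y'', ?_⟩
  rw [add_comm, pow_add, mul_smul, hy'']

end Pool.Agent.Helper2.SD.D_TWO
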